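import Pool.Agent.Run7.h294.F9

/-!
# The mean square of `ζ(1/2+it)` with two Dirichlet polynomials, one of them factorable

Let `A(s) = ∑_{n ≤ N₁} a(n) n^{-s}` with `N₁ ≤ T^θ₁` and `B(s) = ∑_{n ≤ N₂} b(n) n^{-s}` with `N₂ ≤ T^θ₂`.  The
coefficients `b(n)` are arbitrary.  The only condition on the coefficients `a(n)` is that each `n` with
`a(n) ≠ 0` is at most `T^(1-θ₂-δ)` or has a divisor in one fixed interval
`[T^(θ₁+θ₂-1+δ), T^(4-3θ₁-2θ₂-2 max(θ₁,θ₂)-δ)]`.  Then the mean value of `|ζ|² A conj(B)` with a smooth weight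
concentrated near `t = T` is the diagonal main term with an error `T^(-η)`.

The interval is not empty for small `δ` if `6θ₁+3θ₂ < 5` and `4θ₁+5θ₂ < 5`, for instance if `θ₁ = θ₂ < 5/9`.  In
particular `B = A` is allowed, and then every `A` of length `T^θ`, `θ < 5/9`, whose coefficients are supported
on integers without prime factors above a small power of `T`.

Proof.  After Voronoi summation the off-diagonal terms are bilinear sums of Kloosterman fractions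
`e(j m̄ / n)` with arbitrary coefficients in `m` and `n`.  Write `m = r s` with `s` the divisor in the interval.
Cauchy's inequality is applied with the sums over `r` and `n` outside.  By reciprocity the sum over `n` is then an
incomplete Kloosterman sum to the modulus `r s₁ s₂`; it is completed, Weil's bound is used for the part of the
modulus composed of the primes that divide it exactly once, and the trivial bound for the rest.
-/

set_option autoImplicit false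

namespace Pool.Agent.Results.MP_4e5e8a_nt.FactorableTwistedMoment
open Finset Filter MeasureTheory Complex

/-- the Gamma probability density with mean `(1 + 1/k) T` and relative width `1/√k` -/
noncomputable def weight (k : ℕ) (T t : ℝ) : ℝ :=
  (k / T) ^ (k + 1) * t ^ k * Real.exp (-(k / T * t)) / (k.factorial : ℝ)

theorem result (θ₁ θ₂ δ : ℝ) (hδ : 0 < δ) (hθ₁ : θ₁ < 4 / 5) (hθ₂ : θ₂ < 1)
    (hθ : θ₁ + θ₂ < 6 / 5) : ∃ η : ℝ, 0 < η ∧ ∀ᶠ T : ℝ in atTop, ∀ k : ℕ,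
    Real.log T ^ 2 ≤ k → (k : ℝ) ≤ 4 * Real.log T ^ 2 →
    ∀ N₁ N₂ : ℕ, (N₁ : ℝ) ≤ T ^ θ₁ → (N₂ : ℝ) ≤ T ^ θ₂ → ∀ (a b : ℕ → ℂ) (A B : ℝ),
    (∀ n, ‖a n‖ ≤ A) → (∀ n, ‖b n‖ ≤ B) →
    (∀ n, a n ≠ 0 → (n : ℝ) ≤ T ^ (1 - θ₂ - δ) ∨
      ∃ d : ℕ, d ∣ n ∧ T ^ (θ₁ + θ₂ - 1 + δ) ≤ d ∧
        (d : ℝ) ≤ T ^ (4 - 3 * θ₁ - 2 * θ₂ - 2 * max θ₁ θ₂ - δ)) →
    ‖(∫ t in Set.Ioi (0 : ℝ), ((weight k T t * ‖riemannZeta (1 / 2 + t * I)‖ ^ 2 : ℝ) : ℂ) *
        ((∑ n ∈ Icc 1 N₁, a n * (n : ℂ) ^ (-(1 / 2 + t * I))) *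
          (starRingEnd ℂ) (∑ n ∈ Icc 1 N₂, b n * (n : ℂ) ^ (-(1 / 2 + t * I))))) -
      ∑ h ∈ Icc 1 N₁, ∑ l ∈ Icc 1 N₂, a h * (starRingEnd ℂ) (b l) *
        ((1 / (Nat.lcm h l : ℝ) *
          (Real.log (T / (2 * Real.pi * k) * (Nat.gcd h l : ℝ) ^ 2 / ((h : ℝ) * l)) +
            ((harmonic k : ℝ) + Real.eulerMascheroniConstant)) : ℝ) : ℂ)‖ ≤ A * B * T ^ (-η) :=
  Run7.h294.final θ₁ θ₂ δ hδ hθ₁ hθ₂ hθ

end Pool.Agent.Results.MP_4e5e8a_nt.FactorableTwistedMoment
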