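import Pool.Agent.Run7.h517.T2LHb

/-!
# The growth of zeta on the critical line and the zeros of the derivatives of the heat flow

Let `H_t(z) = ∫_0^∞ e^{t u²} Φ(u) cos (z u) du` and let `RealFrom c` say that for all `n ≥ N` and all
`t ≥ c / n` the zeros of the `n`-th derivative of `H_t` are real.  We prove: if `RealFrom c` holds
(even only for `t = c / n` and for the zeros with `|Re z| ≤ e^{κ n}`, `κ > 1 / c`) and
`ζ(1/2 + i t) = O(|t|^(μ + ε))`, then for every `ε > 0` only finitely many zeros of zeta have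
`Re s > 1/2 + μ + √(μ² + 2 c) + ε`.  Hence, if `RealFrom c` holds for all `c > 0`, the growth exponent
at the centre and the zeros determine each other; the Lindelof hypothesis is then equivalent to the
asymptotic form of the Riemann hypothesis.  Under the Lindelof hypothesis the threshold for `c` is
exactly `(θ - 1/2)² / 2`.
-/

set_option autoImplicit false

namespace Pool.Agent.Results.MP_4e5e8a_nt.HeatDerivatives

open Complex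

/-- The kernel `Φ(u) = ∑_{m ≥ 1} (2 π² m⁴ e^{9u} - 3 π m² e^{5u}) exp (- π m² e^{4u})`. -/
noncomputable def Phi (u : ℝ) : ℝ := ∑' m : ℕ,
  (2 * Real.pi ^ 2 * ((m : ℝ) + 1) ^ 4 * Real.exp (9 * u) -
    3 * Real.pi * ((m : ℝ) + 1) ^ 2 * Real.exp (5 * u)) *
    Real.exp (-(Real.pi * ((m : ℝ) + 1) ^ 2 * Real.exp (4 * u)))

/-- `H_t(z) = ∫_0^∞ e^{t u²} Φ(u) cos (z u) du`. -/
noncomputable def H (t : ℝ) (z : ℂ) : ℂ :=
  ∫ u in Set.Ioi (0 : ℝ), ((Real.exp (t * u ^ 2) * Phi u : ℝ) : ℂ) * Complex.cos (z * u)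

/-- For some `N` and all `n ≥ N`, `t ≥ c / n`, all zeros of the `n`-th derivative of `H_t` are real. -/
def RealFrom (c : ℝ) : Prop := ∃ N : ℕ, ∀ n : ℕ, N ≤ n → ∀ t : ℝ, c ≤ n * t → ∀ z : ℂ,
  iteratedDeriv n (H t) z = 0 → z.im = 0

/-- For some `N` and all `n ≥ N`, all zeros with `|Re z| ≤ exp (κ n)` of the `n`-th derivative of
`H_{c/n}` are real. -/
def RealAt (c κ : ℝ) : Prop := ∃ N : ℕ, ∀ n : ℕ, N ≤ n → ∀ z : ℂ,
  iteratedDeriv n (H (c / n)) z = 0 → |z.re| ≤ Real.exp (κ * n) → z.im = 0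

/-- `|ζ(1/2 + i t)| ≤ C (1 + |t|) ^ (μ + ε)` for every `ε > 0`. -/
def Growth (μ : ℝ) : Prop := ∀ ε : ℝ, 0 < ε → ∃ C : ℝ, ∀ t : ℝ,
  ‖riemannZeta (1 / 2 + t * I)‖ ≤ C * (1 + |t|) ^ (μ + ε)

/-- The Lindelof hypothesis. -/
def Lindelof : Prop := ∀ ε : ℝ, 0 < ε → ∃ C : ℝ, ∀ t : ℝ,
  ‖riemannZeta (1 / 2 + t * I)‖ ≤ C * (1 + |t|) ^ ε

/-- For every `ε > 0` only finitely many zeros of zeta have `Re s > θ + ε`. -/
def FinZeros (θ : ℝ) : Prop := ∀ ε : ℝ, 0 < ε → {s : ℂ | θ + ε < s.re ∧ riemannZeta s = 0}.Finite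

theorem result :
    (∀ μ c κ : ℝ, 0 ≤ μ → 0 < c → 1 < κ * c → Growth μ → RealAt c κ →
      FinZeros (1 / 2 + (μ + Real.sqrt (μ ^ 2 + 2 * c)))) ∧
    ((∀ c : ℝ, 0 < c → RealFrom c) → ∀ μ : ℝ, 0 ≤ μ → (Growth μ ↔ FinZeros (1 / 2 + 2 * μ))) ∧
    (Lindelof → ∀ θ : ℝ, 1 / 2 ≤ θ → θ ≤ 1 →
      (FinZeros θ ↔ ∀ c : ℝ, (θ - 1 / 2) ^ 2 / 2 < c → RealFrom c)) ∧
    (FinZeros (1 / 2) ↔ Lindelof ∧ ∀ c : ℝ, 0 < c → RealFrom c) ∧
    (∀ c κ : ℝ, 0 < c → 1 < κ * c → RealAt c κ → FinZeros (2 / 3 + Real.sqrt (1 / 36 + 2 * c))) := by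
  have hL : Lindelof ↔ Growth 0 := by
    unfold Lindelof Growth
    simp only [zero_add]
  have h1 : ∀ μ c κ : ℝ, 0 ≤ μ → 0 < c → 1 < κ * c → Growth μ → RealAt c κ →
      FinZeros (1 / 2 + (μ + Real.sqrt (μ ^ 2 + 2 * c))) := fun μ c κ a b d e f =>
    Run7.h517.asy_of_at μ c κ a b d e f
  have h0 : ∀ c : ℝ, 0 ≤ c → Lindelof → RealFrom c → FinZeros (1 / 2 + Real.sqrt (2 * c)) := by
    intro c hc a b
    have : FinZeros (1 / 2 + (0 + Real.sqrt (0 ^ 2 + 2 * c))) :=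
      Run7.h517.asy_of_thr Run7.h517.sCore 0 c le_rfl hc (hL.1 a) b
    have e : 1 / 2 + (0 + Real.sqrt (0 ^ 2 + 2 * c)) = 1 / 2 + Real.sqrt (2 * c) := by
      rw [zero_add]; norm_num
    rwa [e] at this
  have h3 : Lindelof → ∀ θ : ℝ, 1 / 2 ≤ θ → (∀ c : ℝ, (θ - 1 / 2) ^ 2 / 2 < c → RealFrom c) →
      FinZeros θ := by
    intro a θ t1 b ε hε
    have hc : (θ - 1 / 2) ^ 2 / 2 < (θ - 1 / 2 + ε / 2) ^ 2 / 2 := by nlinarith
    have h4 := h0 _ (by positivity) a (b _ hc) (ε / 2) (by positivity)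
    refine h4.subset ?_
    rintro s ⟨s1, s2⟩
    refine ⟨?_, s2⟩
    have e1 : 2 * ((θ - 1 / 2 + ε / 2) ^ 2 / 2) = (θ - 1 / 2 + ε / 2) ^ 2 := by ring
    rw [e1, Real.sqrt_sq (by linarith)]
    linarith
  have h5 : ∀ θ : ℝ, 1 / 2 ≤ θ → θ ≤ 1 → FinZeros θ → ∀ c : ℝ, (θ - 1 / 2) ^ 2 / 2 < c →
      RealFrom c := fun θ t1 t2 a c hc => Run7.h517.fwdAsy θ c t1 t2 a hc
  refine ⟨h1, fun a μ hμ => Run7.h517.dict Run7.h517.sCore a μ hμ,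
    fun a θ t1 t2 => ⟨h5 θ t1 t2, h3 a θ t1⟩, ⟨?_, ?_⟩, ?_⟩
  · intro a
    refine ⟨?_, fun c hc => h5 (1 / 2) le_rfl (by norm_num) a c (by
      have : ((1 : ℝ) / 2 - 1 / 2) ^ 2 / 2 = 0 := by norm_num
      rw [this]; exact hc)⟩
    rw [hL]
    have h6 : Run7.h517.Asy (1 / 2 + 0) := by rw [add_zero]; exact a
    have h7 := Run7.h517.gr_of_asy 0 le_rfl h6
    rw [zero_div] at h7
    exact h7
  · rintro ⟨a, b⟩
    apply h3 a (1 / 2) le_rfl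
    intro c hc
    apply b
    have : ((1 : ℝ) / 2 - 1 / 2) ^ 2 / 2 = 0 := by norm_num
    rwa [this] at hc
  · intro c κ hc hκ a
    have h8 := h1 (1 / 6) c κ (by norm_num) hc hκ Run7.h517.gr_weyl a
    have e : 1 / 2 + (1 / 6 + Real.sqrt ((1 / 6) ^ 2 + 2 * c)) = 2 / 3 + Real.sqrt (1 / 36 + 2 * c) := by
      have : ((1 : ℝ) / 6) ^ 2 = 1 / 36 := by norm_num
      rw [this]; ring
    rwa [e] at h8

end Pool.Agent.Results.MP_4e5e8a_nt.HeatDerivatives
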