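import Pool.Agent.Run7.h833.HzM

set_option autoImplicit false

/-!
# MP_4e5e8a_nt: the growth of zeta and the exact horizon of reality of the de Bruijn-Newman family

`H t z` is the integral of `exp (t * u ^ 2) * Phi u * cos (z * u)` over `u > 0`, so that
`H 0 z` is the Riemann xi function at `1/2 + i z / 2` up to a constant; it is known that for every
`t > 0` all but finitely many zeros of `H t` are real, and that this is the case beyond
`exp (C / t)` for some `C`. We determine the smallest possible `C`. For `κ > 0`, all zeros `z` of `H t` with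
`|Re z| ≥ exp (κ' / t)` are real for all small `t > 0`, for every `κ' > κ`, if and only if

* for every `ε > 0` only finitely many zeros of zeta have real part above `1/2 + κ/4 + ε`, and
* `zeta (σ + i t) = O (t ^ ((κ/4 - (σ - 1/2)) ^ 2 / κ + ε))` for `1/2 ≤ σ ≤ 1/2 + κ/4`
  (and `O (t ^ ε)` to the right of that).

In particular, under the Lindelof hypothesis the horizon is determined by the zeros of zeta alone: it is
`4 (θ - 1/2)` with `θ` the asymptotic supremum of the real parts of the zeros. With a growth exponent `μ` on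
the critical line instead, all zeros beyond `exp (κ / t)` are real for
`κ > 4 (θ - 1/2) ^ 2 / (θ - 1/2 - μ)`. Unconditionally they are real for every `κ > 27/10`.
-/

namespace Pool.Agent.Results.MP_4e5e8a_nt.HorizonOfReality

open Complex

/-- The de Bruijn-Newman kernel. -/
noncomputable def Phi (u : ℝ) : ℝ := ∑' n : ℕ,
  (2 * Real.pi ^ 2 * ((n : ℝ) + 1) ^ 4 * Real.exp (9 * u) -
    3 * Real.pi * ((n : ℝ) + 1) ^ 2 * Real.exp (5 * u)) *
    Real.exp (-(Real.pi * ((n : ℝ) + 1) ^ 2 * Real.exp (4 * u)))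

/-- The de Bruijn-Newman family: the integral of `exp (t u²) Φ(u) cos (z u)` over `u > 0`. -/
noncomputable def H (t : ℝ) (z : ℂ) : ℂ :=
  ∫ u in Set.Ioi (0 : ℝ), ((Real.exp (t * u ^ 2) * Phi u : ℝ) : ℂ) * Complex.cos (z * u)

/-- For all sufficiently small `t > 0`, all zeros `z` of `H t` with `|Re z| ≥ exp (κ / t)` are real. -/
def RealBeyond (κ : ℝ) : Prop := ∃ t0 : ℝ, 0 < t0 ∧ ∀ t : ℝ, 0 < t → t < t0 → ∀ z : ℂ, H t z = 0 →
  Real.exp (κ / t) ≤ |z.re| → z.im = 0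

/-- For every `ε > 0` only finitely many zeros of zeta have real part above `θ + ε`. -/
def FinZeros (θ : ℝ) : Prop := ∀ ε : ℝ, 0 < ε → {s : ℂ | θ + ε < s.re ∧ riemannZeta s = 0}.Finite

/-- For every `ε > 0`: `|ζ(σ + i t)| ≤ C |t| ^ (μ + ε)` for all real `t` with `|t| ≥ 1`. -/
def Exponent (σ μ : ℝ) : Prop := ∀ ε : ℝ, 0 < ε → ∃ C : ℝ, ∀ t : ℝ, 1 ≤ |t| →
  ‖riemannZeta (σ + t * I)‖ ≤ C * |t| ^ (μ + ε)

/-- The Lindelof hypothesis. -/
def Lindelof : Prop := ∀ ε : ℝ, 0 < ε → ∃ C : ℝ, ∀ t : ℝ,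
  ‖riemannZeta (1 / 2 + t * I)‖ ≤ C * (1 + |t|) ^ ε

theorem result :
    (∀ κ : ℝ, 0 < κ → ((∀ κ' : ℝ, κ < κ' → RealBeyond κ') ↔
      FinZeros (1 / 2 + κ / 4) ∧
      ∀ σ : ℝ, 1 / 2 ≤ σ → σ ≤ 1 → Exponent σ (max (κ / 4 - (σ - 1 / 2)) 0 ^ 2 / κ))) ∧
    (Lindelof → ∀ θ : ℝ, 1 / 2 ≤ θ → θ ≤ 1 →
      (FinZeros θ ↔ ∀ κ : ℝ, 4 * (θ - 1 / 2) < κ → RealBeyond κ)) ∧
    (∀ θ μ κ : ℝ, θ ≤ 1 → 0 ≤ μ → μ < θ - 1 / 2 → FinZeros θ → Exponent (1 / 2) μ →
      4 * (θ - 1 / 2) ^ 2 / (θ - 1 / 2 - μ) < κ → RealBeyond κ) ∧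
    (∀ κ : ℝ, 27 / 10 < κ → RealBeyond κ) := by
  refine ⟨fun κ hκ => Run7.h833.hor_iff hκ, fun hL θ h1 h2 => ?_, fun θ μ κ h1 h2 h3 h4 h5 h6 => ?_,
    fun κ hκ => Run7.h833.hor_uncond hκ⟩
  · constructor
    · intro hA κ hκ
      exact Run7.h833.hor_lind hL h1 h2 hA hκ
    · intro h
      exact Run7.h833.asy_lim fun b hb => by
        have := Pool.Agent.W186.HZ.part_bwd (κ := 4 * (b - 1 / 2)) (by linarith) (h _ (by linarith))
        rwa [show 1 / 2 + 4 * (b - 1 / 2) / 4 = b by ring] at this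
  · refine Run7.h833.hor_growth (y := θ - 1 / 2) (by linarith) h2 h3 ?_ ?_ h6
    · exact h5
    · rw [show 1 / 2 + (θ - 1 / 2) = θ by ring]
      exact h4

end Pool.Agent.Results.MP_4e5e8a_nt.HorizonOfReality
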