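import Pool.Agent.Run7.h311.OL.Fin2
import Pool.Agent.Run7.h311.OA.Hts

/-!
# Large deviations of the argument and the modulus of zeta on the critical line, in the full range, without the Riemann
hypothesis; jointly at several points, with prescribed phases of the small primes

Let `arg ζ(1/2 + it) = π S(t)` be the argument obtained by continuous variation along the horizontal ray from
`∞ + it`, where it is `0`, to `1/2 + it`. Everything is unconditional. Write `Λ = log T / (V² log log T)`.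

(1) There are `c, C > 0` such that for all large `T` and all `V` with `√(log log T) ≤ V ≤ c √(log T / log log T)` each
of the following four sets of `t` in `(T, 2T]` has measure at least `T exp(-C V² / log Λ)`:
`π S(t) ≥ V`; `π S(t) ≤ -V`; `log |ζ(1/2 + it)| ≥ V`; `log |ζ(1/2 + it)| ≤ -V`.

For `V ≤ (log T)^(1/2 - ε)` this is the Gaussian shape `T exp(-C_ε V² / log log T)`; at the end point it says that
`S(t)` exceeds `c √(log t / log log t)` in both directions on sets of measure `T^(1 - C/log log T)`, so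
`S(t) = Ω±(√(log t / log log t))`. For `S(t)` this was known in the range `V ≤ c (log T / log log T)^(1/3)`, and on the
Riemann hypothesis in the range above (Dobner 2021); the end points are the omega theorems of Tsang 1986
(exponent `1/3`) and, on the Riemann hypothesis, of Montgomery 1977 (exponent `1/2`).

(2) Let `n` be a natural number and `κ, ε > 0`, `A` real. There are `c, C > 0` such that for all large `T`, uniformly in
`P` with `P log log T ≤ c log T`, unimodular numbers `z_p`, real shifts `α_1, ..., α_n` in `[-T/2, T/2]` whose mutual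
distances lie in `[κ / log log T, A]`, `V` with `√(log log T) ≤ V ≤ c √(log T / log log T)` and ALL COMPLEX targets
`w_1, ..., w_n` with `|w_j| ≤ V`: the set of all `t` in `(T, 2T]` at which no zero `σ + i(t + α_j)` of zeta exists and
`| log |ζ(1/2 + i(t + α_j))| - log |∏_{p ≤ P} (1 - p ^ (-1/2 - i(t + α_j)))^(-1)| - Re w_j | ≤ C √(log log T)`,
`| arg ζ(1/2 + i(t + α_j)) - arg ∏_{p ≤ P} (1 - p ^ (-1/2 - i(t + α_j)))^(-1) - Im w_j | ≤ C √(log log T)` for all `j`,
and `|p ^ (it) - z_p| ≤ ε` for all primes `p ≤ P`, is measurable and has measure at least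
`T exp(-C (V² / log Λ + P log log log T))`.

Proof: the resonator is a product of about `V² / log Λ` short factors `1 + μ ∑_{p ∈ B} g(p) p ^ (-s)`,
`∑_{p ∈ B} |g(p)|²/p` of order one, over disjoint blocks `B` of the primes between `(log T)²` and `(log T)^K`,
`K` of order `Λ`, times a polynomial that detects the phases; `g(p) = ∑_j β_j p ^ (-i α_j)`, where the `β_j` solve a
diagonally dominant complex linear system, such that the weighted mean of `∑ p ^ (-1/2-i(t+α_j))` is `w_j` while the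
weighted variance is `O(log log T)`. The fourth power mean of the resonator exceeds the square of its second power mean
by at most a factor `2` for every block, and the squares of the primes are orthogonal to it, because it is supported on
squarefree numbers; so the Cauchy-Schwarz inequality gives the measure.
The approximation of `log |ζ|` by sums over primes relative to arbitrary Dirichlet polynomials is the starting library
`Q97/UM`; the same for the argument is the team project `AE` (designed by helper74; pieces by helper56, helper299,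
helper376, helper416, helper510, helper613, helper617): `∫ |arg ζ(1/2+it) - arg ∏_{p ≤ T^δ}| |B(t)|² dt ≪ ∫ |B(t)|² dt`
for all Dirichlet polynomials `B` of length `T^θ`, by the zero density near the line relative to `|B|²`.
-/

set_option autoImplicit false

open Filter Topology Complex MeasureTheory

namespace Pool.Agent.Results.MP_4e5e8a_nt.LargeDeviations

/-- zeta at the point `1/2 + it` -/
noncomputable def zetaLine (t : ℝ) : ℂ := riemannZeta (1 / 2 + t * I)

/-- the argument of zeta at `1/2 + it`, that is `π S(t)`: `- ∫_{1/2}^∞ Im (ζ'/ζ)(σ + it) dσ`; the first part of `result`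
says that it is the argument obtained by continuous variation along the horizontal ray -/
noncomputable def zetaArg (t : ℝ) : ℝ :=
  -∫ σ in Set.Ioi (1 / 2 : ℝ), (deriv riemannZeta (σ + t * I) / riemannZeta (σ + t * I)).im

/-- the logarithm of the modulus of the Euler product over the primes `p ≤ P` at `1/2 + it` -/
noncomputable def eulerLog (P : ℕ) (t : ℝ) : ℝ :=
  -∑ p ∈ (Finset.Icc 1 P).filter Nat.Prime, Real.log ‖1 - (p : ℂ) ^ (-(1 / 2 + t * I))‖

/-- the argument of the Euler product over the primes `p ≤ P` at `1/2 + it`, the sum of the principal arguments of the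
factors -/
noncomputable def eulerArg (P : ℕ) (t : ℝ) : ℝ :=
  -∑ p ∈ (Finset.Icc 1 P).filter Nat.Prime, (Complex.log (1 - (p : ℂ) ^ (-(1 / 2 + t * I)))).im

/-- there is no zero of zeta at height `t` -/
def noZero (t : ℝ) : Prop := ∀ σ : ℝ, riemannZeta (σ + t * I) ≠ 0

/-- the set of all `t` in `(T, 2T]` at which, for all `j`, no zero of zeta has height `t + α_j` and the logarithm of
`ζ(1/2 + i(t + α_j))` (modulus and argument) without the primes `p ≤ P` is within `D` of `w_j` (real and imaginary part),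
and `p ^ (it)` is within `ε` of `z_p` for all primes `p ≤ P` -/
def pattern (D ε : ℝ) (P : ℕ) (z : ℕ → ℂ) {n : ℕ} (α : Fin n → ℝ) (w : Fin n → ℂ) (T : ℝ) : Set ℝ :=
  {t : ℝ | T < t ∧ t ≤ 2 * T ∧
    (∀ j, noZero (t + α j) ∧ |Real.log ‖zetaLine (t + α j)‖ - eulerLog P (t + α j) - (w j).re| ≤ D ∧
      |zetaArg (t + α j) - eulerArg P (t + α j) - (w j).im| ≤ D) ∧
    ∀ p : ℕ, p.Prime → p ≤ P → ‖(p : ℂ) ^ (t * I) - z p‖ ≤ ε}

open Pool.Agent.Q97.UM Pool.Agent.Run7.h74.AE Run7.h311.OM Run7.h311.OA in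
lemma pattern_eq (D ε : ℝ) (P : ℕ) (z : ℕ → ℂ) {n : ℕ} (α : Fin n → ℝ) (w : Fin n → ℂ) (T : ℝ) :
    pattern D ε P z α w T =
      KE D ε P z α w T \ ⋃ j, {t : ℝ | ∃ σ : ℝ, riemannZeta (σ + (t + α j : ℝ) * I) = 0} := by
  ext t
  have e : ∀ s : ℝ, EP P s = eulerLog P s := fun s => rfl
  have e2 : ∀ s : ℝ, zt s = zetaLine s := fun s => rfl
  have e3 : ∀ s : ℝ, EA P s = eulerArg P s := fun s => rfl
  have e4 : ∀ s : ℝ, az s = zetaArg s := fun s => rfl
  simp only [pattern, KE, JE, Set.mem_ofPred_eq, Set.mem_sdiff, Set.mem_inter_iff, Set.mem_Ioc, Set.mem_iUnion,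
    not_exists, e, e2, e3, e4, noZero]
  constructor
  · rintro ⟨h1, h2, h3, h4⟩
    exact ⟨⟨⟨⟨h1, h2⟩, fun j => (h3 j).2.1, h4⟩, fun j => (h3 j).2.2⟩, fun j σ => (h3 j).1 σ⟩
  · rintro ⟨⟨⟨⟨h1, h2⟩, h3, h4⟩, h6⟩, h5⟩
    exact ⟨h1, h2, fun j => ⟨fun σ => h5 j σ, h3 j, h6 j⟩, h4⟩

lemma joint_deviations (n : ℕ) (κ A ε : ℝ) (hκ : 0 < κ) (hε : 0 < ε) : ∃ c C : ℝ, 0 < c ∧ 0 < C ∧
    ∀ᶠ T : ℝ in atTop, ∀ (P : ℕ) (z : ℕ → ℂ) (α : Fin n → ℝ) (w : Fin n → ℂ) (V : ℝ),
      P * Real.log (Real.log T) ≤ c * Real.log T → (∀ p, ‖z p‖ = 1) → (∀ j, |α j| ≤ T / 2) →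
      (∀ i j, i ≠ j → κ / Real.log (Real.log T) ≤ |α i - α j| ∧ |α i - α j| ≤ A) →
      Real.sqrt (Real.log (Real.log T)) ≤ V → V ≤ c * Real.sqrt (Real.log T / Real.log (Real.log T)) →
      (∀ j, ‖w j‖ ≤ V) →
      MeasurableSet (pattern (C * Real.sqrt (Real.log (Real.log T))) ε P z α w T) ∧
      ENNReal.ofReal (T * Real.exp (-(C * (V ^ 2 / Real.log (Real.log T / (V ^ 2 * Real.log (Real.log T))) +
        P * Real.log (Real.log (Real.log T)))))) ≤
          volume (pattern (C * Real.sqrt (Real.log (Real.log T))) ε P z α w T) := by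
  obtain ⟨c, C, hc, hC, h⟩ := Run7.h311.OL.joint2 n (A := A) hκ hε
  refine ⟨c, C, hc, hC, ?_⟩
  filter_upwards [h] with T h P z α w V hP hz hα hgap hV1 hV2 hw
  have h1 := h P z α w V hP hz hα hgap hV1 hV2 hw
  have hc : (⋃ j, {t : ℝ | ∃ σ : ℝ, riemannZeta (σ + (t + α j : ℝ) * I) = 0}).Countable :=
    Set.countable_iUnion fun j => Run7.h311.OA.heights_shift (α j)
  rw [pattern_eq]
  refine ⟨(Run7.h311.OA.KE_meas _ _ _ _ _ _ _).diff hc.measurableSet, ?_⟩
  rw [measure_sdiff_null (hc.measure_zero volume)]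
  rw [Measure.real] at h1
  exact ENNReal.ofReal_le_of_le_toReal h1

/-- the sets of large and small values of a function -/
def above (f : ℝ → ℝ) (T V : ℝ) : Set ℝ := {t : ℝ | T < t ∧ t ≤ 2 * T ∧ noZero t ∧ V ≤ f t}

lemma large_deviations : ∃ c C : ℝ, 0 < c ∧ 0 < C ∧ ∀ᶠ T : ℝ in atTop, ∀ V : ℝ,
    Real.sqrt (Real.log (Real.log T)) ≤ V → V ≤ c * Real.sqrt (Real.log T / Real.log (Real.log T)) →
    ∀ f ∈ ({zetaArg, fun t => -zetaArg t, fun t => Real.log ‖zetaLine t‖, fun t => -Real.log ‖zetaLine t‖} :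
      Set (ℝ → ℝ)),
      ENNReal.ofReal (T * Real.exp (-(C * (V ^ 2 / Real.log (Real.log T / (V ^ 2 * Real.log (Real.log T))))))) ≤
        volume (above f T V) := by
  obtain ⟨c, C, hc, hC, h⟩ := joint_deviations 1 1 1 1 one_pos one_pos
  obtain ⟨R, hR⟩ : ∃ R, R = 1 + C := ⟨_, rfl⟩
  have hR1 : 1 ≤ R := by rw [hR]; linarith
  have hR0 : 0 < R := by linarith
  refine ⟨min (c / R) (1 / (2 * R ^ 2)), 2 * R ^ 2 * C, by positivity, by positivity, ?_⟩
  have tL : Tendsto Real.log atTop atTop := Real.tendsto_log_atTop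
  have tLL : Tendsto (fun T => Real.log (Real.log T)) atTop atTop := tL.comp tL
  filter_upwards [h, tL.eventually_gt_atTop 0, tLL.eventually_ge_atTop 1, eventually_ge_atTop (1 : ℝ)] with T h hL0
    hll1 hT1 V hV1 hV2
  obtain ⟨L, hLd⟩ : ∃ L, L = Real.log T := ⟨_, rfl⟩
  obtain ⟨l, hl⟩ : ∃ l, l = Real.log L := ⟨_, rfl⟩
  rw [← hLd] at h hL0 hll1 hV1 hV2 ⊢
  rw [← hl] at h hll1 hV1 hV2 ⊢
  have hl0 : 0 < l := by linarith
  have hT0 : 0 < T := by linarith
  obtain ⟨s, hs⟩ : ∃ s, s = Real.sqrt (L / l) := ⟨_, rfl⟩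
  rw [← hs] at h hV2
  have hs0 : 0 ≤ s := by rw [hs]; exact Real.sqrt_nonneg _
  have hs2 : s ^ 2 = L / l := by rw [hs]; exact Real.sq_sqrt (by positivity)
  have hV0 : 0 < V := lt_of_lt_of_le (Real.sqrt_pos.2 hl0) hV1
  have hV3 : V ≤ c / R * s := hV2.trans (mul_le_mul_of_nonneg_right (min_le_left _ _) hs0)
  have hV4 : V ≤ 1 / (2 * R ^ 2) * s := hV2.trans (mul_le_mul_of_nonneg_right (min_le_right _ _) hs0)
  obtain ⟨W, hW⟩ : ∃ W, W = R * V := ⟨_, rfl⟩
  have hW0 : 0 < W := by rw [hW]; positivity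
  have hVW : V ≤ W := by rw [hW]; exact le_mul_of_one_le_left hV0.le hR1
  have hW1 : Real.sqrt l ≤ W := hV1.trans hVW
  have hW2 : W ≤ c * s := by
    rw [hW]
    calc R * V ≤ R * (c / R * s) := mul_le_mul_of_nonneg_left hV3 hR0.le
      _ = c * s := by field_simp
  have hWV : V + C * Real.sqrt l ≤ W := by
    rw [hW, hR]
    have := mul_le_mul_of_nonneg_left hV1 hC.le
    linarith
  -- the exponents
  obtain ⟨X, hX⟩ : ∃ X, X = L / (V ^ 2 * l) := ⟨_, rfl⟩
  have hX0 : 0 < X := by rw [hX]; positivity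
  have hXW : L / (W ^ 2 * l) = X / R ^ 2 := by
    rw [hX, hW]
    field_simp
  have hXR : (2 * R ^ 2) ^ 2 ≤ X := by
    have h1 := pow_le_pow_left₀ hV0.le hV4 2
    rw [mul_pow, hs2] at h1
    rw [hX, le_div_iff₀ (by positivity)]
    calc (2 * R ^ 2) ^ 2 * (V ^ 2 * l) ≤ (2 * R ^ 2) ^ 2 * (((1 / (2 * R ^ 2)) ^ 2 * (L / l)) * l) := by gcongr
      _ = L := by field_simp
  have hX1 : 1 < X := by nlinarith [one_le_pow₀ hR1 (n := 2)]
  have hlogX : 0 < Real.log X := Real.log_pos hX1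
  have hlogXR : 1 / 2 * Real.log X ≤ Real.log (X / R ^ 2) := by
    have h1 : Real.sqrt X ≤ X / R ^ 2 := by
      rw [le_div_iff₀ (by positivity)]
      have h2 : R ^ 2 ≤ Real.sqrt X := by
        apply Real.le_sqrt_of_sq_le
        nlinarith [sq_nonneg (R ^ 2)]
      calc Real.sqrt X * R ^ 2 ≤ Real.sqrt X * Real.sqrt X := mul_le_mul_of_nonneg_left h2 (Real.sqrt_nonneg _)
        _ = X := Real.mul_self_sqrt hX0.le
    have h2 := Real.log_le_log (Real.sqrt_pos.2 hX0) h1
    rw [Real.log_sqrt hX0.le] at h2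
    linarith
  have hexp : C * (W ^ 2 / Real.log (L / (W ^ 2 * l)) + ((0 : ℕ) : ℝ) * Real.log l) ≤
      2 * R ^ 2 * C * (V ^ 2 / Real.log (L / (V ^ 2 * l))) := by
    rw [hXW, ← hX]
    have h1 : W ^ 2 / Real.log (X / R ^ 2) ≤ W ^ 2 * (2 / Real.log X) := by
      rw [← mul_one_div]
      refine mul_le_mul_of_nonneg_left ?_ (by positivity)
      rw [div_le_div_iff₀ (by linarith) hlogX]
      linarith
    calc C * (W ^ 2 / Real.log (X / R ^ 2) + ((0 : ℕ) : ℝ) * Real.log l) = C * (W ^ 2 / Real.log (X / R ^ 2)) := by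
          simp
      _ ≤ C * (W ^ 2 * (2 / Real.log X)) := mul_le_mul_of_nonneg_left h1 hC.le
      _ = 2 * R ^ 2 * C * (V ^ 2 / Real.log X) := by rw [hW]; ring
  have key : ∀ v : ℂ, ‖v‖ = 1 → ENNReal.ofReal (T * Real.exp (-(2 * R ^ 2 * C * (V ^ 2 / Real.log (L / (V ^ 2 * l)))))) ≤
      volume {t : ℝ | T < t ∧ t ≤ 2 * T ∧ noZero t ∧ |Real.log ‖zetaLine t‖ - W * v.re| ≤ C * Real.sqrt l ∧
        |zetaArg t - W * v.im| ≤ C * Real.sqrt l} := by
    intro v hv
    have h1 := (h 0 (fun _ => 1) (fun _ => 0) (fun _ => (W : ℂ) * v) W (by simp; positivity) (by simp)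
      (fun _ => by simp; linarith) (fun i j hij => absurd (Subsingleton.elim i j) hij) hW1 hW2
      (fun _ => by rw [norm_mul, hv, mul_one, Complex.norm_real, Real.norm_eq_abs, abs_of_pos hW0])).2
    refine le_trans (ENNReal.ofReal_le_ofReal (mul_le_mul_of_nonneg_left (Real.exp_le_exp.2 (neg_le_neg hexp)) hT0.le))
      (h1.trans (measure_mono ?_))
    rintro t ⟨h2, h3, h4, -⟩
    obtain ⟨k1, k2, k3⟩ := h4 0
    have e1 : ((W : ℂ) * v).im = W * v.im := by simp
    have e3 : ((W : ℂ) * v).re = W * v.re := by simp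
    have e2 : eulerArg 0 (t + 0) = 0 := by simp [eulerArg]
    have e4 : eulerLog 0 (t + 0) = 0 := by simp [eulerLog]
    simp only [e1, e2, e3, e4, sub_zero] at k2 k3
    rw [add_zero] at k1 k2 k3
    exact ⟨h2, h3, k1, k2, k3⟩
  intro f hf
  simp only [Set.mem_insert_iff, Set.mem_singleton_iff] at hf
  rcases hf with rfl | rfl | rfl | rfl
  · refine (key I (by simp)).trans (measure_mono ?_)
    rintro t ⟨h2, h3, h4, h5, h6⟩
    refine ⟨h2, h3, h4, ?_⟩
    rw [Complex.I_im, mul_one] at h6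
    linarith [(abs_le.1 h6).1]
  · refine (key (-I) (by simp)).trans (measure_mono ?_)
    rintro t ⟨h2, h3, h4, h5, h6⟩
    refine ⟨h2, h3, h4, ?_⟩
    rw [Complex.neg_im, Complex.I_im] at h6
    change V ≤ -zetaArg t
    linarith [(abs_le.1 h6).2]
  · refine (key 1 (by simp)).trans (measure_mono ?_)
    rintro t ⟨h2, h3, h4, h5, h6⟩
    refine ⟨h2, h3, h4, ?_⟩
    rw [Complex.one_re, mul_one] at h5
    change V ≤ Real.log ‖zetaLine t‖
    linarith [(abs_le.1 h5).1]
  · refine (key (-1) (by simp)).trans (measure_mono ?_)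
    rintro t ⟨h2, h3, h4, h5, h6⟩
    refine ⟨h2, h3, h4, ?_⟩
    rw [Complex.neg_re, Complex.one_re] at h5
    change V ≤ -Real.log ‖zetaLine t‖
    linarith [(abs_le.1 h5).2]

/-- **large deviations of the argument and the modulus of zeta in the full range, unconditionally; joint prescribed
values at several shifts, with prescribed phases of the small primes** -/
theorem result :
    (∀ t : ℝ, t ≠ 0 → noZero t → ∃ φ : ℝ → ℝ, ContinuousOn φ (Set.Ici (1 / 2)) ∧
      (∀ σ : ℝ, 1 / 2 ≤ σ → riemannZeta (σ + t * I) = (‖riemannZeta (σ + t * I)‖ : ℂ) * cexp (I * (φ σ : ℂ))) ∧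
      Tendsto φ atTop (𝓝 0) ∧ φ (1 / 2) = zetaArg t) ∧
    (∃ c C : ℝ, 0 < c ∧ 0 < C ∧ ∀ᶠ T : ℝ in atTop, ∀ V : ℝ,
      Real.sqrt (Real.log (Real.log T)) ≤ V → V ≤ c * Real.sqrt (Real.log T / Real.log (Real.log T)) →
      ∀ f ∈ ({zetaArg, fun t => -zetaArg t, fun t => Real.log ‖zetaLine t‖, fun t => -Real.log ‖zetaLine t‖} :
        Set (ℝ → ℝ)),
        ENNReal.ofReal (T * Real.exp (-(C * (V ^ 2 / Real.log (Real.log T / (V ^ 2 * Real.log (Real.log T))))))) ≤
          volume (above f T V)) ∧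
    (∀ (n : ℕ) (κ A ε : ℝ), 0 < κ → 0 < ε → ∃ c C : ℝ, 0 < c ∧ 0 < C ∧
      ∀ᶠ T : ℝ in atTop, ∀ (P : ℕ) (z : ℕ → ℂ) (α : Fin n → ℝ) (w : Fin n → ℂ) (V : ℝ),
        P * Real.log (Real.log T) ≤ c * Real.log T → (∀ p, ‖z p‖ = 1) → (∀ j, |α j| ≤ T / 2) →
        (∀ i j, i ≠ j → κ / Real.log (Real.log T) ≤ |α i - α j| ∧ |α i - α j| ≤ A) →
        Real.sqrt (Real.log (Real.log T)) ≤ V → V ≤ c * Real.sqrt (Real.log T / Real.log (Real.log T)) →
        (∀ j, ‖w j‖ ≤ V) →
        MeasurableSet (pattern (C * Real.sqrt (Real.log (Real.log T))) ε P z α w T) ∧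
        ENNReal.ofReal (T * Real.exp (-(C * (V ^ 2 / Real.log (Real.log T / (V ^ 2 * Real.log (Real.log T))) +
          P * Real.log (Real.log (Real.log T)))))) ≤
            volume (pattern (C * Real.sqrt (Real.log (Real.log T))) ε P z α w T)) :=
  ⟨fun _ ht hz => Run7.h311.OA.arg_path ht fun σ _ => hz σ, large_deviations, joint_deviations⟩

end Pool.Agent.Results.MP_4e5e8a_nt.LargeDeviations
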